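import Mathlib
import Pool.Agent.Lib_helper50.SpecCantor.Final

/-!
Problem MP_f7d718_lc, Q2, in a stronger form: for every class `K` of homeomorphisms of the Cantor
set that contains all the homeomorphisms which are topologically transitive and mixing, have dense
periodic points, the specification property and the shadowing property, topological conjugacy
restricted to `K` is Borel bi-reducible with isomorphism of countable graphs, that is, with the
maximal `S_∞`-action. Question Q2 is the case where `K` consists of the topologically transitive
homeomorphisms (`transitive_case`).

The system attached to a bipartite relation `B` on `ℕ × ℕ` consists of the bi-infinite sequences in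
the letters `L_a`, `R_b` (isolated) and jokers (a Cantor set, `L_a` and `R_a` converge to a joker),
where a letter `L_a` or `R_b` may only be followed by itself or by a joker, or `L_a` by `R_b` if
`B a b`. The points `z` that are expansive (only `z` itself has an orbit that stays close to the
orbit of `z`) contain no jokers, because a joker can be moved a little. So the expansive points are
the fixed points `L_a^∞`, `R_b^∞` and the orbits of `L_a^∞ R_b^∞` with `B a b`, and `B` is
determined by the conjugacy class up to isomorphism.
-/

namespace Pool.Agent.Results.MP_f7d718_lc.SpecificationShadowing

open Pool.Agent.Lib_helper89.Cantor (C IsTransitive ConjTrans GraphIso BorelReducible)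
open Pool.Agent.Lib_helper50.SpecCantor

/-- Isomorphism of countable graphs and conjugacy of homeomorphisms of the Cantor set, restricted
to any class `K` that contains all homeomorphisms which are topologically transitive and mixing,
have dense periodic points, the specification property and the shadowing property, are Borel
reducible to each other. -/
theorem result (K : Set (C ≃ₜ C))
    (hK : ∀ T : C ≃ₜ C, IsTransitive T → IsMixing T → HasDensePeriodicPoints T →
      HasSpecification T → HasShadowing T → T ∈ K) :
    BorelReducible GraphIso (ConjOn K) ∧ BorelReducible (ConjOn K) GraphIso :=
  ⟨graph_to_class fun T h1 h2 => hK T (transitive_of_mixing (mixing_of_spec h1))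
    (mixing_of_spec h1) (dense_of_spec h1) h1 h2, class_to_graph K⟩

/-- Q2: the case where `K` consists of the topologically transitive homeomorphisms -/
theorem transitive_case :
    BorelReducible GraphIso ConjTrans ∧ BorelReducible ConjTrans GraphIso :=
  result {T | IsTransitive T} fun _ h _ _ _ _ => h

end Pool.Agent.Results.MP_f7d718_lc.SpecificationShadowing
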